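import Pool.Agent.EDX.Stmts1

/-!
Squad EDX, row CHN: the chain of maximisers.
-/

set_option autoImplicit false

namespace Pool.Agent.EDX.H42

open Polynomial Finset Pool.Agent.EDG Pool.Agent.EDX Module

theorem chn (h1 : MaxStmt) (h2 : DwnStmt) (h3 : FdwStmt) : ChnStmt := by
  intro k₀ K A _ _ _ _ _ _ T c J r₀ hc hr
  let cc : ℕ → ℝ := fun i => c * (1 + (i : ℝ) / ((J : ℝ) + 1))
  have hJ : (0 : ℝ) < (J : ℝ) + 1 := by positivity
  have hge : ∀ i, c ≤ cc i := by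
    intro i
    have h : (0 : ℝ) ≤ (i : ℝ) / ((J : ℝ) + 1) := by positivity
    show c ≤ c * (1 + (i : ℝ) / ((J : ℝ) + 1))
    nlinarith
  have hpos : ∀ i, 0 < cc i := fun i => lt_of_lt_of_le hc (hge i)
  have hlt : ∀ i, cc i < cc (i + 1) := by
    intro i
    show c * (1 + (i : ℝ) / ((J : ℝ) + 1)) < c * (1 + ((i + 1 : ℕ) : ℝ) / ((J : ℝ) + 1))
    apply mul_lt_mul_of_pos_left _ hc
    have h : (i : ℝ) / ((J : ℝ) + 1) < ((i + 1 : ℕ) : ℝ) / ((J : ℝ) + 1) := by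
      apply div_lt_div_of_pos_right _ hJ
      push_cast
      linarith
    linarith
  have hle2 : cc J ≤ 2 * c := by
    show c * (1 + (J : ℝ) / ((J : ℝ) + 1)) ≤ 2 * c
    have h : (J : ℝ) / ((J : ℝ) + 1) ≤ 1 := by
      rw [div_le_one hJ]
      linarith
    nlinarith
  have hex : ∀ i : ℕ, ∃ Φ : K[X], Mx T.mu (cc i) (2 ^ i * r₀) Φ ∧
      cc i * Φ.natDegree ≤ finrank k₀ A := fun i => h1 k₀ K A T.mu (cc i) (2 ^ i * r₀) (hpos i)
  choose Φ hM hd using hex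
  have hdeg : ∀ i, c * (Φ i).natDegree ≤ finrank k₀ A := by
    intro i
    refine le_trans ?_ (hd i)
    exact mul_le_mul_of_nonneg_right (hge i) (Nat.cast_nonneg _)
  have hsum : ∀ i, 2 * ((Φ (i + 1)).natDegree + (Φ i).natDegree) ≤ 2 ^ i * r₀ := by
    intro i
    have ha := hdeg i
    have hb := hdeg (i + 1)
    have hreal : (2 * (((Φ (i + 1)).natDegree : ℝ) + ((Φ i).natDegree : ℝ))) ≤ (r₀ : ℝ) := by
      have h4 : c * (2 * (((Φ (i + 1)).natDegree : ℝ) + ((Φ i).natDegree : ℝ))) ≤ c * (r₀ : ℝ) := by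
        nlinarith
      exact le_of_mul_le_mul_left h4 hc
    have hnat : 2 * ((Φ (i + 1)).natDegree + (Φ i).natDegree) ≤ r₀ := by
      exact_mod_cast hreal
    refine hnat.trans ?_
    exact Nat.le_mul_of_pos_left _ (pow_pos (by norm_num) _)
  refine ⟨Φ, fun i _ => ⟨(hM i).1, hdeg i⟩, fun i _ => ?_, fun Ξ hΞ => ?_⟩
  · have hM' : Mx T.mu (cc (i + 1)) (2 * (2 ^ i * r₀)) (Φ (i + 1)) := by
      have e : 2 * (2 ^ i * r₀) = 2 ^ (i + 1) * r₀ := by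
        rw [pow_succ]
        ring
      rw [e]
      exact hM (i + 1)
    exact ⟨h2 k₀ K A T.mu (Φ (i + 1)) (Φ i) (cc i) (cc (i + 1)) (2 ^ i * r₀) (hM i) hM' (hlt i)
        (hsum i),
      h3 k₀ K A T (Φ (i + 1)) (Φ i) (cc i) (cc (i + 1)) (2 ^ i * r₀) (hpos i).le (hM i) hM' (hlt i)
        (hsum i)⟩
  · have hm := (hM J).2 Ξ hΞ
    have h5 : 0 ≤ cc J * ((Φ J).natDegree : ℝ) := mul_nonneg (hpos J).le (Nat.cast_nonneg _)
    have h6 : cc J * (Ξ.natDegree : ℝ) ≤ 2 * c * (Ξ.natDegree : ℝ) :=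
      mul_le_mul_of_nonneg_right hle2 (Nat.cast_nonneg _)
    linarith

end Pool.Agent.EDX.H42
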